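import Pool.Agent.Helper98.WF.St

/-!
# Project WF, module STP (one prime more)
-/

set_option autoImplicit false

namespace Pool.Agent.Helper92.WF.M_STP

open Pool.Agent.Helper98.WF
open Polynomial

theorem vt_insert {F E : Type} [Field F] [AddCommGroup E] [Module ℚ E] (L : F[X] → E) (d : ℕ)
    (P : F[X]) (T : Set F[X]) (x : E) (hx : x ∈ VT L d (insert P T)) :
    ∃ y ∈ VT L d T, ∃ c : ℚ, x = y + c • L P := by
  have hle : VT L d (insert P T) ≤ VT L d T ⊔ Submodule.span ℚ {L P} := by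
    unfold VT
    rw [Set.image_insert_eq, Submodule.span_insert]
    refine sup_le (le_sup_of_le_left le_sup_left) (sup_le le_sup_right ?_)
    exact le_sup_of_le_left le_sup_right
  obtain ⟨y, hy, w, hw, hyw⟩ := Submodule.mem_sup.1 (hle hx)
  obtain ⟨c, hc⟩ := Submodule.mem_span_singleton.1 hw
  exact ⟨y, hy, c, by rw [← hyw, ← hc]⟩

theorem stSTP (hQA : StQA) (hQB : StQB) (hMZ : StMZ) (hNZ : StNZ) (hPOL : StPOL)
    (hGEN : StGEN) : StSTP := by
  intro p _ F E _ _ _ _ L d P T φ hAlg hL hP hT hφ hSte hS0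
  obtain ⟨hsymm, hdiag⟩ := hφ
  obtain ⟨-, -, -, -, -, hVT, -⟩ := hGEN F E L hL
  have hSmS : Sm L d ≤ VT L d T := (hVT d T).1
  have hPne : P ≠ 0 := hP.2.1.ne_zero
  have hpol := hPOL E φ ⟨hsymm, hdiag⟩
  -- the form q
  have hq1 : ∀ x z, Tri L P (VT L d T) x z → φ (L P) x x = 0 := by
    rintro x z ⟨a, b, c, ha, hb, hc, habc, hx, hz, hxS, hzS⟩
    have h1 := hSte a (P * b) c ha (mul_ne_zero hPne hb) hc habc
    rw [hL.mul P b hPne hb, ← hx] at h1
    have h2 : L P + L b - L c = L P + z := by rw [hz]; abel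
    rw [h2, map_add, LinearMap.add_apply, LinearMap.add_apply, hS0 z hzS x hxS x hxS] at h1
    linarith
  have hq2 := hQA p F E L d P (VT L d T) (φ (L P)) hAlg hL hP hSmS
    (fun x y => hsymm (L P) x y) hq1
  have hq : ∀ x ∈ VT L d T, ∀ y ∈ VT L d T, φ (L P) x y = 0 :=
    hQB p F E L d P T (φ (L P)) hAlg hL hP hT (fun x y => hsymm (L P) x y) hq1 hq2
  -- the forms m and n
  have hxpp : ∀ x, φ x (L P) (L P) = - 2 * φ (L P) (L P) x := by
    intro x
    have h1 := hpol x (L P) (L P)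
    have h2 := hsymm (L P) x (L P)
    linarith
  have hmn : ∀ x z, Tri L P (VT L d T) x z → φ.flip (L P) x z = φ (L P) (L P) x := by
    rintro x z ⟨a, b, c, ha, hb, hc, habc, hx, hz, hxS, hzS⟩
    have h1 := hSte (P * b) a c (mul_ne_zero hPne hb) ha hc (by rw [add_comm]; exact habc)
    rw [hL.mul P b hPne hb, ← hx] at h1
    have h2 : L P + L b - L c = L P + z := by rw [hz]; abel
    rw [h2] at h1
    simp only [map_add, LinearMap.add_apply] at h1
    rw [hS0 x hxS z hzS z hzS, hsymm x z (L P), hxpp x] at h1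
    rw [LinearMap.flip_apply]
    linarith
  have hmalt : ∀ x ∈ VT L d T, φ.flip (L P) x x = 0 := by
    intro x hx
    rw [LinearMap.flip_apply]
    have h1 := hpol x x (L P)
    have h2 := hsymm x x (L P)
    have h3 := hq x hx x hx
    linarith
  have hm : ∀ x ∈ VT L d T, ∀ y ∈ VT L d T, φ.flip (L P) x y = 0 :=
    hMZ p F E L d P T (φ.flip (L P)) (φ (L P) (L P)) hAlg hL hP hT hmalt hmn
  have hn : ∀ x ∈ VT L d T, φ (L P) (L P) x = 0 := by
    refine hNZ p F E L d P T (φ (L P) (L P)) hAlg hL hP hT ?_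
    intro x z htri
    rw [← hmn x z htri]
    obtain ⟨a, b, c, ha, hb, hc, habc, hx, hz, hxS, hzS⟩ := htri
    exact hm x hxS z hzS
  intro x hx y hy z hz
  obtain ⟨x', hx', a, rfl⟩ := vt_insert L d P T x hx
  obtain ⟨y', hy', b, rfl⟩ := vt_insert L d P T y hy
  obtain ⟨z', hz', c, rfl⟩ := vt_insert L d P T z hz
  simp only [map_add, map_smul, LinearMap.add_apply, LinearMap.smul_apply, smul_eq_mul]
  have e1 : φ x' y' z' = 0 := hS0 x' hx' y' hy' z' hz'
  have e2 : φ x' y' (L P) = 0 := by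
    rw [hsymm]
    exact hm x' hx' y' hy'
  have e3 : φ x' (L P) z' = 0 := hm x' hx' z' hz'
  have e4 : φ x' (L P) (L P) = 0 := by rw [hxpp, hn x' hx', mul_zero]
  have e5 : φ (L P) y' z' = 0 := hq y' hy' z' hz'
  have e6 : φ (L P) y' (L P) = 0 := by rw [hsymm]; exact hn y' hy'
  have e7 : φ (L P) (L P) z' = 0 := hn z' hz'
  have e8 : φ (L P) (L P) (L P) = 0 := hdiag _
  rw [e1, e2, e3, e4, e5, e6, e7, e8]
  ring

end Pool.Agent.Helper92.WF.M_STP
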